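import Pool.Agent.helper82.VD.SpecG

/-!
# Project VD (MP_07c750_an), row GSH: shadowing of pseudo-orbits
-/

set_option autoImplicit false

open MeasureTheory Filter Set Topology Pool.Agent.VDE
open scoped ENNReal

namespace Pool.Agent.VDG

theorem GSH_qq {m : ℕ} (a : EE m) (r : ℝ) (h : ‖a‖ ≤ r) : |qq a| ≤ r ^ 2 := by
  unfold qq
  have h1 : |inner ℝ a.1 a.2| ≤ ‖a.1‖ * ‖a.2‖ := abs_real_inner_le_norm _ _
  have h2 : ‖a.1‖ ≤ r := (norm_fst_le a).trans h
  have h3 : ‖a.2‖ ≤ r := (norm_snd_le a).trans h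
  have h4 : ‖a.1‖ * ‖a.2‖ ≤ r * r := mul_le_mul h2 h3 (norm_nonneg _) ((norm_nonneg _).trans h2)
  rw [pow_two]
  exact h1.trans h4

theorem GSH_proof : GSH_stmt := by
  intro S _ m μ d f H C e κ F τ C1 ρ0 hS hB ε hε
  have hC := hS.hC
  have he := hS.he
  have hC1 := hB.hC
  have hρ := hB.hρ
  have hC0 : 0 < C := by linarith
  have hC10 : 0 < C1 := by linarith
  have hCC : 1 ≤ C1 * C := one_le_mul_of_one_le_of_one_le hC1 hC
  obtain ⟨η, hη⟩ : ∃ η : ℝ, η = min (min e ρ0) (min 1 (ε / (2 * C ^ 2 * C1))) := ⟨_, rfl⟩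
  have hη0 : 0 < η := by rw [hη]; exact lt_min (lt_min he hρ) (lt_min one_pos (by positivity))
  have hη1 : η ≤ e := by rw [hη]; exact (min_le_left _ _).trans (min_le_left _ _)
  have hη2 : η ≤ ρ0 := by rw [hη]; exact (min_le_left _ _).trans (min_le_right _ _)
  have hη3 : η ≤ 1 := by rw [hη]; exact (min_le_right _ _).trans (min_le_left _ _)
  have hη4 : 2 * C ^ 2 * C1 * η ≤ ε := by
    have h1 : η ≤ ε / (2 * C ^ 2 * C1) := by rw [hη]; exact (min_le_right _ _).trans (min_le_right _ _)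
    rw [le_div_iff₀ (by positivity)] at h1
    linarith
  have hηsq : η ^ 2 ≤ η := by rw [pow_two]; exact mul_le_of_le_one_left hη0.le hη3
  obtain ⟨δ, hδ⟩ : ∃ δ : ℝ, δ = η / (C1 * C) := ⟨_, rfl⟩
  have hδ0 : 0 < δ := by rw [hδ]; positivity
  have hδ1 : C1 * (C * δ) = η := by rw [hδ]; field_simp
  have hδ2 : C * δ ≤ η := by
    rw [← hδ1]
    exact le_mul_of_one_le_left (by positivity) hC1
  have hδ3 : δ ≤ η := (le_mul_of_one_le_left hδ0.le hC).trans hδ2
  have hCsq : C ≤ C ^ 2 := by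
    have := mul_le_mul_of_nonneg_left hC hC0.le
    rw [pow_two]; linarith
  have hCη : C * η ≤ C ^ 2 * η := mul_le_mul_of_nonneg_right hCsq hη0.le
  have hC2η : C ^ 2 * η ≤ C ^ 2 * C1 * η := mul_le_mul_of_nonneg_right (le_mul_of_one_le_right (by positivity) hC1) hη0.le
  have hpos : 0 < C ^ 2 * C1 * η := by positivity
  refine ⟨δ, hδ0, ?_⟩
  intro n x hx
  obtain ⟨a, ha1, ha2⟩ := hB.sha n (fun i => F (x i) (x (i + 1))) (C * δ) (by positivity) (hδ2.trans hη2) (by
    intro i hi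
    have h1 := hx i hi
    refine ⟨hS.poH _ _ (h1.trans (hδ3.trans hη1)), ?_⟩
    exact (hS.po0 _ _ (h1.trans (hδ3.trans hη1))).trans (mul_le_mul_of_nonneg_left h1 hC0.le))
  rw [hδ1] at ha2
  obtain ⟨T, hT⟩ : ∃ T : ℕ → ℝ, T = fun i => ∑ l ∈ Finset.range i, τ (x l) (x (l + 1)) (a l) := ⟨_, rfl⟩
  have hT0 : T 0 = 0 := by rw [hT]; simp
  have hTs : ∀ i, T (i + 1) = T i + τ (x i) (x (i + 1)) (a i) := by
    intro i
    rw [hT]
    exact Finset.sum_range_succ _ _
  have hpo : ∀ i < n, κ (x (i + 1)) (F (x i) (x (i + 1)) (a i)) = f (τ (x i) (x (i + 1)) (a i)) (κ (x i) (a i)) ∧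
      |τ (x i) (x (i + 1)) (a i) - 1| ≤ C * (‖a i‖ ^ 2 + d (f 1 (x i)) (x (i + 1))) := fun i hi =>
    hS.poF _ _ ((hx i hi).trans (hδ3.trans hη1)) _ ((ha2 i hi.le).trans hη1)
  have hzz : ∀ i ≤ n, f (T i) (κ (x 0) (a 0)) = κ (x i) (a i) := by
    intro i
    induction i with
    | zero =>
      intro _
      rw [hT0, hS.f0]
    | succ i ih =>
      intro hi
      rw [hTs, add_comm, hS.fa, ih (by omega), ← (hpo i (by omega)).1, ha1 i (by omega)]
  refine ⟨κ (x 0) (a 0), T, hT0, ?_, ?_, ?_⟩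
  · intro i hi
    have h1 := (hpo i hi).2
    have h2 : T (i + 1) - T i - 1 = τ (x i) (x (i + 1)) (a i) - 1 := by rw [hTs]; ring
    rw [h2]
    have h3 : ‖a i‖ ^ 2 ≤ η ^ 2 := pow_le_pow_left₀ (norm_nonneg _) (ha2 i hi.le) 2
    have h4 : ‖a i‖ ^ 2 + d (f 1 (x i)) (x (i + 1)) ≤ 2 * η := by linarith [hx i hi]
    have h5 := mul_le_mul_of_nonneg_left h4 hC0.le
    linarith
  · intro i hi s hs
    have h1 : f (T i + s) (κ (x 0) (a 0)) = f s (κ (x i) (a i)) := by
      rw [add_comm, hS.fa, hzz i hi]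
    rw [h1]
    have h2 := hS.lp (x i) (κ (x i) (a i)) s (by rw [abs_of_nonneg hs.1]; linarith [hs.2])
    have h3 := hS.kl (x i) (a i) ((ha2 i hi).trans hη1)
    have h4 : C * d (x i) (κ (x i) (a i)) ≤ C * (C * η) :=
      mul_le_mul_of_nonneg_left (h3.trans (mul_le_mul_of_nonneg_left (ha2 i hi) hC0.le)) hC0.le
    have h5 : C * (C * η) = C ^ 2 * η := by ring
    linarith
  · intro i j hij hjn hl
    have key : ∀ j, i ≤ j → j ≤ n → (∀ l, i ≤ l → l < j → x (l + 1) = f 1 (x l)) →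
        |T j - T i - ((j : ℝ) - i)| ≤ C * C1 * (qq (a j) - qq (a i)) := by
      intro j hij
      induction j, hij using Nat.le_induction with
      | base =>
        intro _ _
        simp
      | succ j hij ih =>
        intro hj hl
        have ih' := ih (by omega) (fun l h1 h2 => hl l h1 (by omega))
        have hjn' : j < n := by omega
        have hd0 : d (f 1 (x j)) (x (j + 1)) = 0 := by
          rw [hl j hij (by omega)]
          exact hS.dz _
        have hF0 : F (x j) (x (j + 1)) 0 = 0 := by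
          have h1 := hS.po0 (x j) (x (j + 1)) (by rw [hd0]; exact he.le)
          rw [hd0, mul_zero] at h1
          exact norm_le_zero_iff.1 h1
        have hq := hB.qs _ (hS.poH (x j) (x (j + 1)) (by rw [hd0]; exact he.le)) hF0 (a j) ((ha2 j (by omega)).trans hη2)
        have hq' : qq (a (j + 1)) = qq (F (x j) (x (j + 1)) (a j)) := by rw [ha1 j hjn']
        rw [← hq'] at hq
        have h1 := (hpo j hjn').2
        rw [hd0, add_zero] at h1
        have h2 : ‖a j‖ ^ 2 ≤ C1 * (qq (a (j + 1)) - qq (a j)) := by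
          have h3 : C1 * (C1⁻¹ * ‖a j‖ ^ 2) ≤ C1 * (qq (a (j + 1)) - qq (a j)) := mul_le_mul_of_nonneg_left (by linarith) hC10.le
          rwa [mul_inv_cancel_left₀ hC10.ne'] at h3
        have h4 := mul_le_mul_of_nonneg_left h2 hC0.le
        have h5 : T (j + 1) - T i - (((j + 1 : ℕ) : ℝ) - i) = (T j - T i - ((j : ℝ) - i)) + (τ (x j) (x (j + 1)) (a j) - 1) := by
          rw [hTs]; push_cast; ring
        rw [h5]
        have h6 := abs_add_le (T j - T i - ((j : ℝ) - i)) (τ (x j) (x (j + 1)) (a j) - 1)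
        linarith
    refine (key j hij hjn hl).trans ?_
    have h1 := (abs_le.1 (GSH_qq (a j) η (ha2 j hjn))).2
    have h2 := (abs_le.1 (GSH_qq (a i) η (ha2 i (hij.trans hjn)))).1
    have h3 : C * C1 * (qq (a j) - qq (a i)) ≤ C * C1 * (2 * η) := mul_le_mul_of_nonneg_left (by linarith) (by positivity)
    have h4 : C * C1 * η ≤ C ^ 2 * C1 * η := mul_le_mul_of_nonneg_right (mul_le_mul_of_nonneg_right hCsq hC10.le) hη0.le
    linarith

end Pool.Agent.VDG
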